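import Pool.Agent.H33.SMS.Asm1

/-!
MP_ec36a5_nt: recovering a multiset of integers from the multiset of its `s`-sums. For at least one
third of all `n` this is possible for all `s` at the same time.
-/

set_option autoImplicit false

namespace Pool.Agent.Results.MP_ec36a5_nt.AllSums

/-- The multiset of the sums of all `s`-element sub-multisets of `A`. -/
def sumsOf (s : ℕ) (A : Multiset ℤ) : Multiset ℤ := (Multiset.powersetCard s A).map Multiset.sum

/-- Two `n`-multisets of integers with the same multiset of `s`-sums are equal. -/
def Determined (n s : ℕ) : Prop :=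
  ∀ A B : Multiset ℤ, Multiset.card A = n → Multiset.card B = n → sumsOf s A = sumsOf s B → A = B

open Classical in
/-- For every `N` at least one third of all `n ≤ N` is such that, for ALL `s < n` with `2s ≠ n`,
every `n`-multiset of integers is determined by its `s`-sums. -/
theorem result (N : ℕ) : (N : ℝ) / 3 ≤
    (((Finset.Icc 1 N).filter (fun n => ∀ s, 1 ≤ s → s < n → 2 * s ≠ n →
      Determined n s)).card : ℝ) :=
  Pool.Agent.H33.SMS.main1.2.1 N

end Pool.Agent.Results.MP_ec36a5_nt.AllSums
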