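import Pool.Agent.H33.SMS.Asm3

/-!
MP_ec36a5_nt: recovering a multiset of integers from the multiset of its `s`-sums. A criterion with
primes smaller than `s`, a power saving for the number of exceptional pairs, and boundedly many
exceptional `s` for almost all `n`.
-/

set_option autoImplicit false

namespace Pool.Agent.Results.MP_ec36a5_nt.FewExceptions

/-- The multiset of the sums of all `s`-element sub-multisets of `A`. -/
def sumsOf (s : ℕ) (A : Multiset ℤ) : Multiset ℤ := (Multiset.powersetCard s A).map Multiset.sum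

/-- Two `n`-multisets of integers with the same multiset of `s`-sums are equal. -/
def Determined (n s : ℕ) : Prop :=
  ∀ A B : Multiset ℤ, Multiset.card A = n → Multiset.card B = n → sumsOf s A = sumsOf s B → A = B

open Classical in
/-- (1) Criterion: if a prime `p` divides `n` but not `s < n` and
`v_p(n - i) < v_p(n) + v_p((s-1)(s-2)...(s-i))` for `1 ≤ i < s`, then every `n`-multiset of
integers is determined by its `s`-sums.
(2) All but `O(N^(7/4) (1 + log N)^2)` of the pairs `(n, s)`, `1 ≤ s < n ≤ N`, are determined.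
(3) For every `ε > 0` there is `R` such that for all `N` all but `ε N` of the `n ≤ N` have at most
`R` exceptional values of `s < n`. -/
theorem result :
    (∀ p n s : ℕ, p.Prime → p ∣ n → ¬ p ∣ s → s < n →
      (∀ i, 1 ≤ i → i < s →
        padicValNat p (n - i) < padicValNat p n + padicValNat p ((s - 1).descFactorial i)) →
      Determined n s) ∧
    (∃ C : ℝ, 0 < C ∧ ∀ N : ℕ, 1 ≤ N →
      ((∑ n ∈ Finset.Icc 1 N,
        ((Finset.Ico 1 n).filter (fun s => ¬ Determined n s)).card : ℕ) : ℝ) ≤
        C * (N : ℝ) ^ (7 / 4 : ℝ) * (1 + Real.log N) ^ 2) ∧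
    (∀ ε : ℝ, 0 < ε → ∃ R : ℕ, ∀ N : ℕ,
      ((((Finset.Icc 1 N).filter (fun n =>
        R < ((Finset.Ico 1 n).filter (fun s => ¬ Determined n s)).card)).card : ℕ) : ℝ) ≤
        ε * N) := by
  refine ⟨?_, Pool.Agent.H33.SMS.exc, Pool.Agent.H33.SMS.main1.2.2⟩
  intro p n s hp h1 h2 h3 h4
  exact Pool.Agent.H33.SMS.main1.1 p n s ⟨hp, h1, h2, h4⟩ h3

end Pool.Agent.Results.MP_ec36a5_nt.FewExceptions
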