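import Pool.Agent.H14.MT.Main

/-!
MP_ec36a5_nt: there is no magical triplet for `s = 4`. For every `n > 8` no three pairwise distinct
`n`-multisets of integers have the same multiset of 4-sums; and if moreover `n ≠ 12`, no two
distinct ones have.
-/

set_option autoImplicit false

namespace Pool.Agent.Results.MP_ec36a5_nt.FourSums

open Pool.Agent.H14.MT

theorem sums_cast (A : Multiset ℤ) :
    sums 4 (A.map fun a : ℤ => (a : ℚ)) =
      ((Multiset.powersetCard 4 A).map Multiset.sum).map fun a : ℤ => (a : ℚ) := by
  unfold sums
  rw [Multiset.powersetCard_map, Multiset.map_map, Multiset.map_map]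
  apply Multiset.map_congr rfl
  intro t _
  simp only [Function.comp]
  have h := map_multiset_sum (Int.castRingHom ℚ) t
  exact h.symm

/-- No magical triplet for `s = 4`: for `n > 8`, three `n`-multisets of integers with the same
multiset of 4-sums are not pairwise distinct. -/
theorem result :
    ∀ n : ℕ, 2 * 4 < n →
      ∀ A B C : Multiset ℤ,
        Multiset.card A = n → Multiset.card B = n → Multiset.card C = n →
        A ≠ B → B ≠ C → A ≠ C →
        ¬ ((Multiset.powersetCard 4 A).map Multiset.sum =
              (Multiset.powersetCard 4 B).map Multiset.sum ∧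
           (Multiset.powersetCard 4 B).map Multiset.sum =
              (Multiset.powersetCard 4 C).map Multiset.sum) := by
  rintro n hn A B C hA hB hC hAB hBC hAC ⟨h1, h2⟩
  have hinj : Function.Injective (fun a : ℤ => (a : ℚ)) := Int.cast_injective
  have e1 : sums 4 (A.map fun a : ℤ => (a : ℚ)) = sums 4 (B.map fun a : ℤ => (a : ℚ)) := by
    rw [sums_cast, sums_cast, h1]
  have e2 : sums 4 (A.map fun a : ℤ => (a : ℚ)) = sums 4 (C.map fun a : ℤ => (a : ℚ)) := by
    rw [sums_cast, sums_cast, h1, h2]
  rcases no_tripleQ (n := n) (by omega) (by rw [Multiset.card_map, hA])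
    (by rw [Multiset.card_map, hB]) (by rw [Multiset.card_map, hC]) e1 e2 with h | h | h
  · exact hAB (Multiset.map_injective hinj h)
  · exact hBC (Multiset.map_injective hinj h)
  · exact hAC (Multiset.map_injective hinj h)

end Pool.Agent.Results.MP_ec36a5_nt.FourSums
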