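import Pool.Agent.H33.SMP.Final

/-!
MP_ec36a5_nt: recovering a multiset of integers from the multiset of its `s`-sums. Necessary
conditions on the pairs `(n, s)`, `n > 2 s ≥ 10`, for which this is not possible: all `s ≤ 20` and
`s = 32` are excluded up to three pairs, and there are explicit divisibility restrictions for `s` a
power of two and for `s` divisible by four.
-/

set_option autoImplicit false

namespace Pool.Agent.Results.MP_ec36a5_nt.SmallSums

/-- The multiset of the sums of all `s`-element sub-multisets of `A`. -/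
def sumsOf (s : ℕ) (A : Multiset ℤ) : Multiset ℤ := (Multiset.powersetCard s A).map Multiset.sum

/-- Two `n`-multisets of integers with the same multiset of `s`-sums are equal. -/
def Determined (n s : ℕ) : Prop :=
  ∀ A B : Multiset ℤ, Multiset.card A = n → Multiset.card B = n → sumsOf s A = sumsOf s B → A = B

/-- Let `s ≥ 5`, `n > 2 s` and suppose that `(n, s)` is not determined. Then
(a) `(n, s)` is one of `(27, 6)`, `(32, 10)`, `(147, 14)`, or `s ≥ 21` and `s ≠ 32`;
(b) if `s = 2 ^ e`, then `n` divides `2 ^ (3 e - 3)` times the least common multiple of the odd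
numbers below `s`;
(c) if `4 ∣ s`, then every power of two which divides `n` is at most `s ^ 3`. -/
theorem result (n s : ℕ) (hs : 5 ≤ s) (hn : 2 * s < n) (h : ¬ Determined n s) :
    ((n, s) = (27, 6) ∨ (n, s) = (32, 10) ∨ (n, s) = (147, 14) ∨ 21 ≤ s ∧ s ≠ 32) ∧
    (∀ e : ℕ, s = 2 ^ e → n ∣ 2 ^ (3 * e - 3) * ((Finset.range s).filter Odd).lcm id) ∧
    (4 ∣ s → ∀ c : ℕ, 2 ^ c ∣ n → 2 ^ c ≤ s ^ 3) := by
  refine ⟨?_, ?_, ?_⟩
  · by_contra hc
    refine h (Pool.Agent.H33.SMP.small_det n s ?_ hn (fun h1 => hc (Or.inl h1))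
      (fun h1 => hc (Or.inr (Or.inl h1))) (fun h1 => hc (Or.inr (Or.inr (Or.inl h1)))))
    by_contra h2
    exact hc (Or.inr (Or.inr (Or.inr (by omega))))
  · rintro e rfl
    have he : 3 ≤ e := by
      by_contra he
      have h1 : e = 0 ∨ e = 1 ∨ e = 2 := by omega
      rcases h1 with rfl | rfl | rfl <;> norm_num at hs
    exact Pool.Agent.H33.SMP.pow_det e n he (by omega) h
  · intro h4 c hc
    exact Pool.Agent.H33.SMP.four_det n s c h4 (by omega) (by omega) h hc

end Pool.Agent.Results.MP_ec36a5_nt.SmallSums
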